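import Pool.Agent.Lib.MP_5c318e_ag.S.AFin

/-! Polynomial growth of the dimension of spaces of functions with linearly growing poles. -/

set_option autoImplicit false

namespace Pool.Agent.Lib.MP_5c318e_ag

open Set
open scoped NNReal

namespace Gr

section Om

variable {Om ι : Type} [Field Om] [Fintype ι] [DecidableEq ι]

omit [DecidableEq ι] in
theorem aeval_mem_span {k : Type} [Field k] [Algebra k Om] (s : ι → Om) {D : ℕ}
    (p : MvPolynomial ι k) (hp : p.totalDegree ≤ D) : MvPolynomial.aeval s p ∈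
      Submodule.span k (range fun q : ι → Fin (D + 1) => ∏ j, s j ^ (q j : ℕ)) := by
  rw [p.as_sum, map_sum]
  refine Submodule.sum_mem _ fun m hm => ?_
  rw [MvPolynomial.aeval_monomial, ← Algebra.smul_def, Finsupp.prod_fintype _ _ (by simp)]
  refine Submodule.smul_mem _ _ (Submodule.subset_span ⟨fun j => ⟨m j, Nat.lt_succ_of_le ?_⟩, rfl⟩)
  exact ((MvPolynomial.monomial_le_degreeOf j hm).trans
    (MvPolynomial.degreeOf_le_totalDegree p j)).trans hp

theorem exists_span [IsAlgClosed Om] [CharZero Om] {k : Subfield Om} {s : ι → Om}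
    (hs : AlgebraicIndependent k s)
    (halg : ∀ y : Om, IsAlgebraic (Subfield.closure ((k : Set Om) ∪ range s)) y) (th : Om)
    (c0 : ℝ≥0) (hc : 1 ≤ c0) (h1 : ∀ v, PV k s v → v th ≤ 1) (h2 : ∀ v, DV k s v → v th ≤ c0) :
    ∃ (d : ℕ) (e : Fin d → Om), ∀ (c : ℝ≥0) (D : ℕ), ((c * c0 ^ d : ℝ≥0) : ℝ) ≤ Real.exp D →
      ∀ f ∈ IntermediateField.adjoin (Subfield.closure ((k : Set Om) ∪ range s)) {th},
      (∀ v, PV k s v → v f ≤ 1) → (∀ v, DV k s v → v f ≤ c) → f ∈ Submodule.span k
        (range fun q : Fin d × (ι → Fin (D + 1)) => (∏ j, s j ^ (q.2 j : ℕ)) * e q.1) := by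
  classical
  set F := Subfield.closure ((k : Set Om) ∪ range s) with hF
  have hi : IsIntegral F th := (halg th).isIntegral
  have := IntermediateField.adjoin.finiteDimensional hi
  let pb := IntermediateField.adjoin.powerBasis hi
  refine ⟨pb.dim, fun i => (pb.basis.traceDual i : Om), fun c D hD f hf g1 g2 => ?_⟩
  let f' : IntermediateField.adjoin F {th} := ⟨f, hf⟩
  have e1 : f = ∑ i, (Algebra.trace F _ (f' * pb.basis i) : Om) * (pb.basis.traceDual i : Om) := by
    have := congrArg Subtype.val (pb.basis.traceDual.sum_repr f').symm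
    simp only [Module.Basis.traceDual_repr_apply, Algebra.traceForm_apply] at this
    push_cast at this
    exact this
  rw [e1]
  refine Submodule.sum_mem _ fun i _ => ?_
  have e2 : ((f' * pb.basis i : IntermediateField.adjoin F {th}) : Om) = f * th ^ (i : ℕ) := by
    rw [pb.basis_eq_pow]; rfl
  obtain ⟨p, hp⟩ := FinV_poly hs halg (Algebra.trace F _ (f' * pb.basis i)).2 fun v hv => by
    refine FinV_trace F halg _ _ v 1 fun t => ?_
    have hv' : PV k s (v.comap t.toRingHom) := by
      obtain ⟨Q, hQ, h1, h2⟩ := hv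
      refine ⟨Q, hQ, ?_, fun p hp => ?_⟩
      · change v (t _) < 1
        rwa [FinV_fix]
      · change v (t _) = v (t _) ^ _
        rw [FinV_fix, FinV_fix, h2 p hp]
    change v.comap t.toRingHom _ ≤ 1
    rw [e2, map_mul, map_pow]
    exact mul_le_one' (g1 _ hv') (pow_le_one' (h1 _ hv') _)
  have hdeg : p.totalDegree ≤ D := by
    by_cases hp0 : p = 0
    · simp [hp0]
    obtain ⟨v, -, -, hv⟩ := ext_mv_deg hs halg
    have h3 : v (Algebra.trace F _ (f' * pb.basis i) : Om) ≤ c * c0 ^ pb.dim := by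
      refine FinV_trace F halg _ _ v _ fun t => ?_
      have hv' : DV k s (v.comap t.toRingHom) := fun p hp => by
        change (v (t _) : ℝ) = _
        rw [FinV_fix, hv p hp]
      change v.comap t.toRingHom _ ≤ _
      rw [e2, map_mul, map_pow]
      exact mul_le_mul' (g2 _ hv') (le_trans (pow_le_pow_left' (h2 _ hv') _)
        (pow_le_pow_right' hc i.2.le))
    rw [hp, ← NNReal.coe_le_coe, hv p hp0] at h3
    exact_mod_cast Real.exp_le_exp.1 (h3.trans hD)
  rw [hp]
  have h4 := Submodule.mem_map_of_mem (f := LinearMap.mulRight k (pb.basis.traceDual i : Om))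
    (aeval_mem_span s p hdeg)
  rw [Submodule.map_span] at h4
  refine Submodule.span_mono ?_ h4
  rintro _ ⟨_, ⟨q, rfl⟩, rfl⟩
  exact ⟨(i, q), rfl⟩

end Om

variable {k F ι : Type} [Field k] [CharZero k] [Field F] [Algebra k F] [Fintype ι] [DecidableEq ι]
  {z : ι → F}

/-- (C1) functions whose poles are bounded by the `a`-th power of a finite family -/
theorem count (hz : IsTranscendenceBasis k z) (hfg : (⊤ : IntermediateField k F).FG) {σ : Type}
    [Fintype σ] (g : σ → F) : ∃ C : ℕ, ∀ (a : ℕ) (E : Submodule k F),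
      (∀ φ ∈ E, ∀ O : ValuationSubring F, (∀ c : k, algebraMap k F c ∈ O) →
        ∃ i, O.valuation φ ≤ O.valuation (g i) ^ a) →
      FiniteDimensional k E ∧ Module.finrank k E ≤ C * (a + 1) ^ Fintype.card ι := by
  classical
  let Om := AlgebraicClosure F
  let ψ : F →+* Om := algebraMap F Om
  have : CharZero F := charZero_of_injective_algebraMap (algebraMap k F).injective
  have : CharZero Om := charZero_of_injective_algebraMap ψ.injective
  let s : ι → Om := fun j => ψ (z j)
  have hb : IsTranscendenceBasis k s := hz.algebraMap_comp (A := Om)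
  have halg := alg_of_basis hb
  have hk : ∀ a : k, ψ (algebraMap k F a) = algebraMap k Om a := fun a =>
    (IsScalarTower.algebraMap_apply k F Om a).symm
  set K0 := Subfield.closure ((kR k Om : Set Om) ∪ range s) with hK0
  have hRK : ∀ r ∈ Subring.closure ((kR k Om : Set Om) ∪ range s), r ∈ K0 := fun r hr =>
    Subfield.subring_closure_le _ hr
  obtain ⟨S, hS⟩ := hfg
  let M := IntermediateField.adjoin K0 (ψ '' S)
  have : Finite (ψ '' S) := (S.finite_toSet.image ψ).to_subtype
  have : FiniteDimensional K0 M :=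
    IntermediateField.finiteDimensional_adjoin fun y _ => (halg y).isIntegral
  obtain ⟨θ, hθ⟩ := Field.exists_primitive_element K0 M
  have h1 : M = IntermediateField.adjoin K0 {(θ : Om)} := by
    have := congrArg (IntermediateField.map M.val) hθ
    rw [IntermediateField.adjoin_map, Set.image_singleton, ← AlgHom.fieldRange_eq_map,
      IntermediateField.fieldRange_val] at this
    exact this.symm
  have hNM : ∀ x : F, ψ x ∈ M := fun x => by
    have h2 : Subfield.closure ((kR k F : Set F) ∪ S) ≤ M.toSubfield.comap ψ := by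
      refine Subfield.closure_le.2 ?_
      rintro a (⟨b, rfl⟩ | ha)
      · exact M.algebraMap_mem (⟨_, Subfield.subset_closure (Or.inl ⟨b, (hk b).symm⟩)⟩ : K0)
      · exact IntermediateField.subset_adjoin _ _ ⟨a, ha, rfl⟩
    rw [closure_kR, hS] at h2
    exact h2 trivial
  obtain ⟨r0, hr0, h0, ht1, c0, ht2⟩ := exists_mul_BdR (halg θ)
  have hM : ∀ y ∈ M, y ∈ IntermediateField.adjoin K0 {r0 * θ} := fun y hy => by
    refine (IntermediateField.adjoin_simple_le_iff (K := IntermediateField.adjoin K0 {r0 * θ})).2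
      ?_ (h1 ▸ hy)
    have h2 : r0⁻¹ * (r0 * θ) ∈ IntermediateField.adjoin K0 {r0 * θ} :=
      mul_mem (inv_mem ((IntermediateField.adjoin K0 {r0 * θ}).algebraMap_mem
        ⟨r0, hRK _ hr0⟩)) (IntermediateField.mem_adjoin_simple_self K0 (r0 * θ))
    rwa [inv_mul_cancel_left₀ h0] at h2
  choose r hr hr1 hr2 using fun i => exists_mul_BdR (halg (ψ (g i)))
  let ρ := ∏ i, r i
  have hρ : ∀ i, ρ * ψ (g i) ∈ BdR (kR k Om) s := fun i => by
    rw [show ρ = _ from (Finset.prod_erase_mul _ _ (Finset.mem_univ i)).symm, mul_assoc]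
    exact mul_mem (prod_mem fun j _ => closure_le_BdR (hr j)) (hr2 i)
  choose c hc using fun i => (hρ i).2
  obtain ⟨d, e, he⟩ := exists_span (indep_kR_iff.2 hb.1) halg (r0 * θ) (1 + c0) le_self_add ht1
    fun v hv => (ht2 v hv).trans le_add_self
  obtain ⟨L, hL⟩ := exists_nat_ge (((∑ i, c i : ℝ≥0) : ℝ) + ((1 + c0) ^ d : ℝ≥0))
  have hL1 : ((∑ i, c i : ℝ≥0) : ℝ) ≤ Real.exp L := by
    linarith [Real.add_one_le_exp (L : ℝ), ((1 + c0) ^ d : ℝ≥0).2]
  have hL2 : (((1 + c0) ^ d : ℝ≥0) : ℝ) ≤ Real.exp L := by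
    linarith [Real.add_one_le_exp (L : ℝ), (∑ i, c i : ℝ≥0).2]
  refine ⟨d * (L + 1) ^ Fintype.card ι, fun a E hE => ?_⟩
  have key : ∀ φ ∈ E, ∀ v : Valuation Om ℝ≥0, (∀ a ∈ kR k Om, v a ≤ 1) →
      ∃ i, v (ρ ^ a * ψ φ) ≤ v (ρ * ψ (g i)) ^ a := fun φ hφ v hv => by
    obtain ⟨i, hi⟩ := hE φ hφ (v.comap ψ).valuationSubring fun a => hv _ ⟨a, (hk a).symm⟩
    rw [← map_pow] at hi
    have h2 : v (ψ φ) ≤ v (ψ (g i ^ a)) :=
      ((Valuation.isEquiv_valuation_valuationSubring (v.comap ψ)) φ (g i ^ a)).2 hi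
    refine ⟨i, ?_⟩
    rw [map_mul, map_mul, mul_pow, map_pow v ρ, ← map_pow v (ψ _), ← map_pow ψ]
    exact mul_le_mul' le_rfl h2
  let T : Fin d × (ι → Fin (L * (a + 1) + 1)) → Om :=
    fun q => (∏ j, s j ^ (q.2 j : ℕ)) * e q.1
  let Λ : E →ₗ[k] Om := (LinearMap.mulLeft k (ρ ^ a)).comp
    ((IsScalarTower.toAlgHom k F Om).toLinearMap.comp E.subtype)
  have hΛ : ∀ φ : E, Λ φ ∈ Submodule.span k (range T) := fun φ => by
    have h2 : Λ φ ∈ Submodule.span (kR k Om) (range T) := by
      refine he ((∑ i, c i) ^ a) (L * (a + 1)) ?_ _ (hM _ (mul_mem (pow_mem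
        (M.algebraMap_mem ⟨ρ, prod_mem fun i _ => hRK _ (hr i)⟩) a) (hNM φ)))
        (fun v hv => ?_) fun v hv => ?_
      · rw [NNReal.coe_mul, NNReal.coe_pow, Nat.cast_mul, mul_comm (L : ℝ), Real.exp_nat_mul,
          pow_succ]
        exact mul_le_mul (pow_le_pow_left₀ (NNReal.coe_nonneg _) hL1 a) hL2 (NNReal.coe_nonneg _)
          (by positivity)
      · obtain ⟨i, hi⟩ := key φ φ.2 v fun a ha =>
          (closure_le_BdR (s := s) (Subring.subset_closure (Or.inl ha))).1 v hv
        exact hi.trans (pow_le_one' ((hρ i).1 v hv) a)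
      · obtain ⟨i, hi⟩ := key φ φ.2 v fun a ha => hv.const ha
        exact hi.trans (pow_le_pow_left' ((hc i v hv).trans
          (Finset.single_le_sum (f := c) (fun _ _ => zero_le) (Finset.mem_univ i))) a)
    generalize Λ φ = w at h2
    induction h2 using Submodule.span_induction with
    | mem a ha => exact Submodule.subset_span ha
    | zero => exact zero_mem _
    | add a b _ _ ha hb => exact add_mem ha hb
    | smul a b _ hb =>
      obtain ⟨_, a, rfl⟩ := a
      have := Submodule.smul_mem _ a hb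
      rwa [Algebra.smul_def] at this
  have hinj : Function.Injective (Λ.codRestrict _ hΛ) := fun a b h => Subtype.ext
    (ψ.injective (mul_left_cancel₀ (pow_ne_zero _ (Finset.prod_ne_zero_iff.2 fun i _ => hr1 i))
      (congrArg Subtype.val h)))
  have : FiniteDimensional k (Submodule.span k (range T)) :=
    FiniteDimensional.span_of_finite k (finite_range T)
  refine ⟨FiniteDimensional.of_injective _ hinj,
    (LinearMap.finrank_le_finrank_of_injective hinj).trans ((finrank_range_le_card T).trans ?_)⟩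
  rw [Fintype.card_prod, Fintype.card_fin, Fintype.card_fun, Fintype.card_fin, mul_assoc, ← mul_pow]
  exact Nat.mul_le_mul_left _ (Nat.pow_le_pow_left (by nlinarith) _)

/-- (C3) a positive sequence of polynomial growth does not double at some step -/
theorem exists_lt_two {u : ℕ → ℕ} {C n : ℕ} (h : ∀ a, u a ≤ C * (a + 1) ^ n) (a0 : ℕ)
    (h0 : 0 < u a0) : ∃ a, a0 ≤ a ∧ u (a + 1) < 2 * u a := by
  by_contra hn
  push Not at hn
  have h1 : ∀ j, 2 ^ j ≤ u (a0 + j) := fun j => by
    induction j with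
    | zero => exact h0
    | succ j ih => exact (by omega : 2 ^ (j + 1) ≤ 2 * u (a0 + j)).trans (hn _ le_self_add)
  have h2 := (tendsto_pow_const_div_const_pow_of_one_lt n (r := 2) one_lt_two).comp
    (Filter.tendsto_add_atTop_nat (a0 + 1))
  have h3 : (0 : ℝ) < 1 / ((C + 1) * 2 ^ (a0 + 1)) := by positivity
  obtain ⟨j, hj⟩ := (h2.eventually (gt_mem_nhds h3)).exists
  have h4 : ((2 ^ j : ℕ) : ℝ) ≤ (C * (a0 + j + 1) ^ n : ℕ) := Nat.cast_le.2 ((h1 j).trans (h _))
  simp only [Function.comp] at hj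
  rw [div_lt_div_iff₀ (by positivity) (by positivity), pow_add _ j] at hj
  push_cast at h4 hj
  have h5 : (j : ℝ) + (a0 + 1) = a0 + j + 1 := by ring
  rw [h5] at hj
  have h6 : (0 : ℝ) < 2 ^ (a0 + 1) := by positivity
  have h7 : (0 : ℝ) ≤ ((a0 : ℝ) + j + 1) ^ n := by positivity
  nlinarith [mul_le_mul_of_nonneg_right h4 h6.le, mul_nonneg h7 h6.le]

end Gr

end Pool.Agent.Lib.MP_5c318e_ag
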