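import Pool.Agent.Lib.MP_5c318e_ag.S.AFrm
import Pool.Agent.Lib.MP_5c318e_ag.Gr.Count

/-! The charts of a smooth complete model together with their prime divisors; growth of spaces of
functions with bounded poles along these prime divisors. -/

set_option autoImplicit false

namespace Pool.Agent.Lib.MP_5c318e_ag

open Set

variable {k F ι : Type} [Field k] [Field F] [Algebra k F] [Fintype ι] [DecidableEq ι]
  {z : ι → F} {d : ι → Derivation k F F}

/-- frames together with the height one primes of each chart -/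
structure Atl (d : ι → Derivation k F F) extends Frames d where
  Pr : Fin N → Set (ValuationSubring F)
  div : ∀ i, ∀ O ∈ Pr i, IsDivisorial k F O
  le : ∀ i, ∀ O ∈ Pr i, ∀ a ∈ A i, a ∈ O
  loc : ∀ i, ∀ O ∈ Pr i, ∀ φ ∈ O, ∃ a ∈ A i, ∃ b ∈ A i, O.valuation b = 1 ∧ φ * b = a
  frac : ∀ i (φ : F), ∃ a ∈ A i, ∃ b ∈ A i, b ≠ 0 ∧ φ * b = a
  fin : ∀ i (φ : F), {O ∈ Pr i | φ ∉ O}.Finite
  pure : ∀ i (φ : F), (∀ O ∈ Pr i, φ ∈ O) → φ ∈ A i
  regI : ∀ i, ∀ O ∈ Pr i, ∀ m φ, RegI d m φ O ↔ φ / Jac d (f i) ^ m ∈ O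

namespace Gr

/-- one chart of an atlas -/
def Good (d : ι → Derivation k F F) (B : Subalgebra k F) : Prop :=
  B.FG ∧ (∀ φ : F, ∃ a ∈ B, ∃ b ∈ B, b ≠ 0 ∧ φ * b = a) ∧
    ∃ f : ι → F, (∀ j, f j ∈ B) ∧ Jac d f ≠ 0 ∧
    ∃ Pr : Set (ValuationSubring F), (∀ O ∈ Pr, IsDivisorial k F O ∧ (∀ a ∈ B, a ∈ O) ∧
      (∀ φ ∈ O, ∃ a ∈ B, ∃ b ∈ B, O.valuation b = 1 ∧ φ * b = a) ∧
      ∀ m φ, RegI d m φ O → φ / Jac d f ^ m ∈ O) ∧
      (∀ x : F, {O ∈ Pr | x ∉ O}.Finite) ∧ ∀ φ, (∀ O ∈ Pr, φ ∈ O) → φ ∈ B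

variable [CharZero k]

theorem good_of_etale (hd : Dual k z d) {A σ : Type} [CommRing A] [Algebra k A] [Algebra A F]
    [IsScalarTower k A F] [IsFractionRing A F] [Algebra.FiniteType k A] [Fintype σ]
    (g : MvPolynomial σ k →ₐ[k] A) (hg : g.toRingHom.Etale) :
    Good d (IsScalarTower.toAlgHom k A F).range := by
  classical
  let : Algebra (MvPolynomial σ k) A := g.toRingHom.toAlgebra
  let : Algebra (MvPolynomial σ k) F := ((algebraMap A F).comp g.toRingHom).toAlgebra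
  have : IsScalarTower (MvPolynomial σ k) A F := .of_algebraMap_eq' rfl
  have : Algebra.Etale (MvPolynomial σ k) A := hg
  let y : σ → F := fun j => algebraMap A F (g (MvPolynomial.X j))
  have hy : ∀ p, algebraMap (MvPolynomial σ k) F p = MvPolynomial.aeval y p := fun p =>
    DFunLike.congr_fun (MvPolynomial.algHom_ext (f := (IsScalarTower.toAlgHom k A F).comp g)
      (g := MvPolynomial.aeval y) fun j => by rw [MvPolynomial.aeval_X]; rfl) p
  have hi : AlgebraicIndependent k y := fun p q e =>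
    etale_inj (R := MvPolynomial σ k) (A := A) (F := F) (by rw [hy, hy]; exact e)
  have hb : IsTranscendenceBasis k y := hi.isTranscendenceBasis_iff_isAlgebraic.2 ⟨fun x =>
    ((etale_alg (R := MvPolynomial σ k) (A := A) (F := F)).isAlgebraic x).ringHom_of_comp_eq
      (hi.aevalEquiv : MvPolynomial σ k →+* Algebra.adjoin k (range y)) (RingHom.id F)
      hi.aevalEquiv.injective (RingHom.ext fun p => (hy p).symm)⟩
  have hc : Fintype.card ι = Fintype.card σ := by
    have h1 := hd.basis.cardinalMk_eq_trdeg.trans hb.cardinalMk_eq_trdeg.symm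
    rw [Cardinal.mk_fintype, Cardinal.mk_fintype] at h1
    exact_mod_cast h1
  let e := Fintype.equivOfCardEq hc
  have hJ : Jac d (fun j => y (e j)) ≠ 0 := hd.isFr'.jac_ne (hi.comp e e.injective)
  have key : ∀ O ∈ EtPr (MvPolynomial σ k) A F, ∃ (c : ι → F) (i0 : ι), Adp k O c i0 ∧
      O.valuation (Jac d c) ≤ O.valuation (Jac d fun j => y (e j)) := by
    rintro O ⟨h0, Q, hQ, h2⟩
    have h3 := etale_grp' hQ h0 h2
    have h1 : ∀ p, algebraMap (MvPolynomial σ k) F p ∈ O := fun p => h0 _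
    simp only [hy] at h1 h2 h3
    obtain ⟨i0, h4⟩ := prime_var hQ
    have h5 : RIndC k O.valuation fun j : {a // a ≠ i0} => y j := fun p hp => by
      have h6 : MvPolynomial.aeval (fun a : {a // a ≠ i0} => y a) p
          = MvPolynomial.aeval y (MvPolynomial.rename Subtype.val p) := by
        rw [MvPolynomial.aeval_rename]; rfl
      rw [h6]
      exact le_antisymm ((O.valuation_le_one_iff _).2 (h1 _))
        (not_lt.1 fun h => h4 p hp ((h2 _).1 h))
    have h6 : Fintype.card (Option {a // a ≠ i0}) = Fintype.card σ :=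
      Fintype.card_congr (Equiv.optionSubtypeNe i0)
    refine ⟨_, _, (adp_option (fun h => hQ.ne_zero (hi (h.trans (map_zero _).symm)))
      ((h2 Q).2 dvd_rfl) h3 h5 (by
        rw [← hb.cardinalMk_eq_trdeg, Cardinal.mk_fintype, ← h6, Fintype.card_option])).reindex
      (Fintype.equivOfCardEq (hc.trans h6.symm)), ?_⟩
    rw [jac_chain d hJ, map_mul]
    refine mul_le_of_le_one_right' ?_
    refine (val_jac_le O.valuation _ _ (fun _ => 1) (fun _ => 1) fun a b => ?_).trans (by simp)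
    have h9 : ∀ j, dual d (fun j => y (e j)) b (y j) ∈ O := fun j => by
      obtain ⟨l, rfl⟩ := e.surjective j
      rw [dual_self d hJ b l]
      split_ifs
      exacts [one_mem _, zero_mem _]
    rw [one_mul, O.valuation_le_one_iff, Function.comp_apply]
    cases Fintype.equivOfCardEq (hc.trans h6.symm) a with
    | none => exact der_aeval_mem h1 _ h9 Q
    | some j => exact h9 j
  refine ⟨?_, fun φ => ?_, fun j => y (e j), fun j => ⟨_, rfl⟩, hJ, EtPr (MvPolynomial σ k) A F,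
    fun O hO => ?_, EtPr.finite, fun φ hφ => etale_purity' (R := MvPolynomial σ k) hφ⟩
  · rw [← Algebra.map_top]
    exact Algebra.FiniteType.out.map _
  · obtain ⟨a, b, hb, rfl⟩ := IsFractionRing.div_surjective (A := A) φ
    have h0 : algebraMap A F b ≠ 0 := (IsLocalization.map_units F ⟨b, hb⟩).ne_zero
    exact ⟨_, ⟨a, rfl⟩, _, ⟨b, rfl⟩, h0, div_mul_cancel₀ _ h0⟩
  obtain ⟨c, i0, h1, h2⟩ := key O hO
  refine ⟨h1.divisorial, ?_, fun φ hφ => ?_, fun m φ hφ => ?_⟩
  · rintro _ ⟨a, rfl⟩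
    exact hO.1 a
  · obtain ⟨t, a, ht, h3⟩ := etale_loc hO hφ
    exact ⟨_, ⟨a, rfl⟩, _, ⟨t, rfl⟩, le_antisymm ((O.valuation_le_one_iff _).2 (hO.1 t))
      (not_lt.1 fun h4 => ht ((mem_ctr t).1 h4)), (mul_comm _ _).trans h3⟩
  · rw [← O.valuation_le_one_iff, map_div₀, map_pow,
      div_le_one₀ (pow_pos ((Valuation.pos_iff _).2 hJ) m)]
    exact (hφ.le_adp h1).trans (pow_le_pow_left' h2 m)

theorem good_away (hd : Dual k z d) (A : Subalgebra k F) [IsFractionRing A F]
    [Algebra.FiniteType k A] {g : A} (hg : g ≠ 0)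
    (hs : Algebra.IsStandardSmooth k (Localization.Away g)) :
    ∃ B, Good d B ∧ ∀ O : ValuationSubring F, (∀ a ∈ A, a ∈ O) → O.valuation (g : F) = 1 →
      ∀ b ∈ B, b ∈ O := by
  have hg' : (g : F) ≠ 0 := fun h => hg (Subtype.ext h)
  have hu : IsUnit (algebraMap A F g) := IsUnit.mk0 _ hg'
  let : Algebra (Localization.Away g) F := (IsLocalization.Away.lift g hu).toAlgebra
  have : IsScalarTower A (Localization.Away g) F :=
    .of_algebraMap_eq fun a => (IsLocalization.Away.lift_eq g hu a).symm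
  have : IsScalarTower k (Localization.Away g) F := .of_algebraMap_eq fun a => by
    rw [IsScalarTower.algebraMap_apply k A (Localization.Away g), ← IsScalarTower.algebraMap_apply,
      ← IsScalarTower.algebraMap_apply]
  have : IsFractionRing (Localization.Away g) F :=
    IsFractionRing.isFractionRing_of_isDomain_of_isLocalization (Submonoid.powers g) _ _
  obtain ⟨n, φ, h1, h2⟩ := RingHom.IsStandardSmooth.exists_etale_mvPolynomial
    (f := algebraMap k (Localization.Away g)) (RingHom.isStandardSmooth_algebraMap.2 hs)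
  refine ⟨_, good_of_etale hd (A := Localization.Away g)
    { φ with commutes' := fun a => DFunLike.congr_fun h1 a } h2, ?_⟩
  · rintro O h5 h6 _ ⟨b, rfl⟩
    obtain ⟨⟨a, _, l, rfl⟩, h7⟩ := IsLocalization.surj (Submonoid.powers g) b
    have h8 := congrArg (fun c => O.valuation (algebraMap _ F c)) h7
    simp only [map_mul, map_pow, ← IsScalarTower.algebraMap_apply] at h8
    rw [← O.valuation_le_one_iff]
    change O.valuation (algebraMap _ F b) ≤ 1
    change _ * O.valuation (g : F) ^ l = O.valuation (a : F) at h8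
    rw [h6, one_pow, mul_one] at h8
    rw [h8, O.valuation_le_one_iff]
    exact h5 a a.2

theorem good_cover (hd : Dual k z d) (A : Subalgebra k F) [IsFractionRing A F]
    [Algebra.Smooth k A] : ∃ S : Set (Subalgebra k F), S.Finite ∧ (∀ B ∈ S, Good d B) ∧
      ∀ O : ValuationSubring F, (∀ a ∈ A, a ∈ O) → ∃ B ∈ S, ∀ b ∈ B, b ∈ O := by
  obtain ⟨s, hs, h1⟩ := Algebra.Smooth.exists_span_eq_top_isStandardSmooth k A
  obtain ⟨t, ht, h2⟩ := (Ideal.span_eq_top_iff_finite s).1 hs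
  choose B h3 h4 using fun g : {g : A // g ∈ t ∧ g ≠ 0} => good_away hd A g.2.2 (h1 g (ht g.2.1))
  have : Finite {g : A // g ∈ t ∧ g ≠ 0} := (t.finite_toSet.subset fun _ h => h.1).to_subtype
  refine ⟨range B, finite_range B, forall_mem_range.2 h3, fun O hO => ?_⟩
  have h5 : ∃ g ∈ t, O.valuation (g : F) = 1 := by
    by_contra hn
    have h6 : ∀ a ∈ Ideal.span (t : Set A), O.valuation (a : F) < 1 := fun a ha => by
      induction ha using Submodule.span_induction with
      | mem a ha =>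
        exact lt_of_le_of_ne ((O.valuation_le_one_iff _).2 (hO a a.2)) fun h => hn ⟨a, ha, h⟩
      | zero => simp
      | add a b _ _ ha hb => exact O.valuation.map_add_lt ha hb
      | smul a b _ hb =>
        rw [smul_eq_mul, Subalgebra.coe_mul, map_mul]
        exact (mul_le_of_le_one_left' ((O.valuation_le_one_iff _).2 (hO a a.2))).trans_lt hb
    simpa using h6 1 (h2 ▸ trivial)
  obtain ⟨g, hg, h6⟩ := h5
  have h7 : g ≠ 0 := fun h => by simp [h] at h6
  exact ⟨_, ⟨⟨g, hg, h7⟩, rfl⟩, h4 _ O hO h6⟩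

end Gr

variable [CharZero k]

theorem SmoothModel.atlas (h : SmoothModel k F) (hd : Dual k z d) : Nonempty (Atl d) := by
  obtain ⟨N, A, h1, h2⟩ := h
  choose S h3 h4 h5 using fun i => @Gr.good_cover k F ι _ _ _ _ _ z d _ hd (A i) (h1 i).2 (h1 i).1
  obtain ⟨n, B, hB⟩ := (finite_iUnion h3).fin_param
  have hG : ∀ j, Gr.Good d (B j) := fun j => by
    obtain ⟨i, hi⟩ := mem_iUnion.1 (hB.2.le ⟨j, rfl⟩)
    exact h4 i _ hi
  choose f g3 g4 Pr g5 g6 g7 using fun j => (hG j).2.2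
  refine ⟨{ N := n, A := B, f := f, fg := fun j => (hG j).1, mem := g3, ne := g4
            reg := fun j m φ hφ => g7 j _ fun O hO => (g5 j O hO).2.2.2 m φ (hφ O (g5 j O hO).1)
            cover := fun O hO => ?_, Pr := Pr, div := fun j O hO => (g5 j O hO).1
            le := fun j O hO => (g5 j O hO).2.1, loc := fun j O hO => (g5 j O hO).2.2.1
            frac := fun j => (hG j).2.1, fin := g6, pure := g7
            regI := fun j O hO m φ => ⟨(g5 j O hO).2.2.2 m φ, fun hφ =>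
              ⟨f j, fun i => (g5 j O hO).2.1 _ (g3 j i), _, hφ,
                (div_mul_cancel₀ _ (pow_ne_zero m (g4 j))).symm⟩⟩ }⟩
  obtain ⟨i, hi⟩ := h2 O hO
  obtain ⟨C, hC, h0⟩ := h5 i O hi
  obtain ⟨j, rfl⟩ := hB.2.ge (mem_iUnion.2 ⟨i, hC⟩)
  exact ⟨j, h0⟩

namespace Atl

variable (Q : Atl d)

/-- PRIMES of the atlas -/
def primes : Set (ValuationSubring F) := ⋃ i, Q.Pr i

omit [CharZero k]

theorem primes_div {O : ValuationSubring F} (hO : O ∈ Q.primes) : IsDivisorial k F O := by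
  obtain ⟨j, hj⟩ := mem_iUnion.1 hO
  exact Q.div j O hj

theorem primes_fin (g : F) : {O ∈ Q.primes | g ∉ O}.Finite :=
  (finite_iUnion fun j => Q.fin j g).subset fun O hO => by
    obtain ⟨j, hj⟩ := mem_iUnion.1 hO.1
    exact mem_iUnion.2 ⟨j, hj, hO.2⟩

/-- a form that is regular at the primes is regular at every valuation ring -/
theorem regI_all {m : ℕ} {φ : F} (h : ∀ O ∈ Q.primes, RegI d m φ O) (O : ValuationSubring F)
    (hO : ∀ c : k, algebraMap k F c ∈ O) : RegI d m φ O := by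
  obtain ⟨j, hj⟩ := Q.cover O hO
  exact ⟨Q.f j, fun i => hj _ (Q.mem j i), _, hj _ (Q.pure j _ fun O' hO' =>
    (Q.regI j O' hO' m φ).1 (h O' (mem_iUnion.2 ⟨j, hO'⟩))),
    (div_mul_cancel₀ _ (pow_ne_zero m (Q.ne j))).symm⟩

theorem plu {m : ℕ} {φ : F} (h : ∀ O ∈ Q.primes, RegI d m φ O) : Plu d m φ :=
  fun O hO => Q.regI_all h O hO.const

/-- a common denominator on a chart -/
theorem exists_den {σ : Type} [Fintype σ] (g : σ → F) (i : Fin Q.N) :
    ∃ h : F, h ≠ 0 ∧ h ∈ Q.A i ∧ ∀ j, g j * h ∈ Q.A i := by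
  classical
  choose a ha b hb h0 e using fun j => Q.frac i (g j)
  refine ⟨∏ j, b j, Finset.prod_ne_zero_iff.2 fun j _ => h0 j, prod_mem fun j _ => hb j, fun j => ?_⟩
  rw [← Finset.mul_prod_erase _ _ (Finset.mem_univ j), ← mul_assoc, e]
  exact mul_mem (ha j) (prod_mem fun l _ => hb l)

include Q in
theorem fg_top : (⊤ : IntermediateField k F).FG := by
  obtain ⟨i, -⟩ := Q.cover ⊤ fun _ => trivial
  obtain ⟨s, hs⟩ := Q.fg i
  refine ⟨s, top_le_iff.1 fun x _ => ?_⟩
  obtain ⟨a, ha, b, hb, h0, e⟩ := Q.frac i x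
  rw [eq_div_of_mul_eq h0 e]
  exact div_mem (IntermediateField.algebra_adjoin_le_adjoin k _ (hs.ge ha))
    (IntermediateField.algebra_adjoin_le_adjoin k _ (hs.ge hb))

/-- a bound at the primes gives a bound at every valuation ring -/
theorem exists_bound {σ : Type} [Fintype σ] (g : σ → F) : ∃ h : Fin Q.N → F, (∀ i, h i ≠ 0) ∧
    ∀ (a : ℕ) (φ : F), (∀ O ∈ Q.primes, ∃ j, O.valuation φ ≤ O.valuation (g j) ^ a) →
      ∀ i, φ * h i ^ a ∈ Q.A i := by
  choose h h0 _ h2 using Q.exists_den g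
  refine ⟨h, h0, fun a φ hφ i => Q.pure i _ fun P hP => ?_⟩
  obtain ⟨j, hj⟩ := hφ P (mem_iUnion.2 ⟨i, hP⟩)
  rw [← P.valuation_le_one_iff, map_mul, map_pow]
  refine (mul_le_mul' hj le_rfl).trans ?_
  rw [← mul_pow, ← map_mul]
  exact pow_le_one' ((P.valuation_le_one_iff _).2 (Q.le i P hP _ (h2 i j))) a

end Atl

/-- (C2) the bound of `Gr.count` is needed at the primes only -/
theorem Atl.count (Q : Atl d) (hz : IsTranscendenceBasis k z) {σ : Type} [Fintype σ] (g : σ → F) :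
    ∃ C : ℕ, ∀ (a : ℕ) (E : Submodule k F),
      (∀ φ ∈ E, ∀ O ∈ Q.primes, ∃ j, O.valuation φ ≤ O.valuation (g j) ^ a) →
      FiniteDimensional k E ∧ Module.finrank k E ≤ C * (a + 1) ^ Fintype.card ι := by
  obtain ⟨h, h0, h2⟩ := Q.exists_bound g
  obtain ⟨C, hC⟩ := Gr.count hz Q.fg_top fun i => (h i)⁻¹
  refine ⟨C, fun a E hE => hC a E fun φ hφ O hO => ?_⟩
  obtain ⟨i, hi⟩ := Q.cover O hO
  refine ⟨i, ?_⟩
  have h4 := (O.valuation_le_one_iff _).2 (hi _ (h2 a φ (hE φ hφ) i))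
  rw [map_mul, map_pow] at h4
  rwa [map_inv₀, inv_pow, ← one_div,
    le_div_iff₀ (pow_pos ((Valuation.pos_iff _).2 (h0 i)) a)]

/-- (C2) poles `(x) ^ a` at the primes outside the finite set `V`; at `O ∈ V` an extra pole of order
at most `c (a + 1)` in `u O` -/
theorem Atl.count_poles (Q : Atl d) (hz : IsTranscendenceBasis k z) {σ : Type} [Fintype σ]
    (x : σ → F) {V : Set (ValuationSubring F)} (hV : V.Finite)
    (u : ValuationSubring F → F) (hu : ∀ O ∈ V, u O ≠ 0) (c : ℕ) :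
    ∃ C : ℕ, ∀ (a : ℕ) (E : Submodule k F),
      (∀ φ ∈ E, ∀ O ∈ Q.primes, O ∉ V → ∃ j, O.valuation φ ≤ O.valuation (x j) ^ a) →
      (∀ φ ∈ E, ∀ O ∈ Q.primes, O ∈ V →
        ∃ j, O.valuation (φ * u O ^ (c * (a + 1))) ≤ O.valuation (x j) ^ a) →
      FiniteDimensional k E ∧ Module.finrank k E ≤ C * (a + 1) ^ Fintype.card ι := by
  classical
  have := hV.fintype
  obtain ⟨C, hC⟩ := Q.count hz fun q : Option V × σ × Bool =>
    (if q.2.2 then x q.2.1 else 1) / q.1.elim 1 fun O => u O ^ c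
  refine ⟨C * 2 ^ Fintype.card ι, fun a E g1 g2 => (hC (a + 1) E fun φ hφ O hO => ?_).imp_right
    fun h => h.trans ?_⟩
  · have key : ∀ (j : σ) (w : F), w ≠ 0 → O.valuation (φ * w ^ (a + 1)) ≤ O.valuation (x j) ^ a →
        ∃ b : Bool, O.valuation φ ≤ O.valuation ((if b then x j else 1) / w) ^ (a + 1) := by
      intro j w hw h
      have hp := pow_pos ((Valuation.pos_iff O.valuation).2 hw) (a + 1)
      rw [map_mul, map_pow] at h
      rcases le_total (O.valuation (x j)) 1 with h2 | h2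
      · refine ⟨false, ?_⟩
        rw [map_div₀, div_pow, le_div_iff₀ hp]
        simpa using h.trans (pow_le_one' h2 a)
      · refine ⟨true, ?_⟩
        rw [map_div₀, div_pow, le_div_iff₀ hp]
        exact h.trans (pow_le_pow_right' h2 a.le_succ)
    by_cases hOV : O ∈ V
    · obtain ⟨j, hj⟩ := g2 φ hφ O hO hOV
      obtain ⟨b, hb⟩ := key j (u O ^ c) (pow_ne_zero _ (hu O hOV)) (by rwa [← pow_mul])
      exact ⟨(some ⟨O, hOV⟩, j, b), hb⟩
    · obtain ⟨j, hj⟩ := g1 φ hφ O hO hOV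
      obtain ⟨b, hb⟩ := key j 1 one_ne_zero (by rwa [one_pow, mul_one])
      exact ⟨(none, j, b), hb⟩
  · rw [mul_assoc, ← mul_pow]
    exact Nat.mul_le_mul_left _ (Nat.pow_le_pow_left (by omega) _)

end Pool.Agent.Lib.MP_5c318e_ag
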